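import Mathlib

/-!
# The Peres conjecture fails for random walks on cycles

There are convolution walks on cycles `ℤ/n` (even symmetric ones, charging every element) with
`T_rel / T_mix(1/2) → 0` that have no total variation cutoff.

The walks are perturbations of a walk with bounded relaxation time and unbounded mixing time: the
cycle `ℤ/n`, where `n` is the product of `m = 4 ^ T` pairwise coprime large numbers `a_i`, is the
product of the groups `ℤ/a_i`, and in one step the walk leaves every coordinate unchanged with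
probability `1/2` and otherwise replaces it by a uniform element, independently of the others. The
relaxation time is at most `2`, but up to time `T` some coordinate has never been refreshed, with
high probability. With probability `1/T` a step is replaced by a uniform element of `ℤ/n`. Then the
distance to the uniform law at the times `t ≤ T` is close to `(1 - 1/T) ^ t`.
-/

set_option autoImplicit false

namespace Pool.Agent.Results.MP_ee50b4_pr.ProductConditionNoCutoff

open Filter Topology Finset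

/-- `μ` is a probability measure on `ℤ/n` (given by its weights). -/
def IsLaw {n : ℕ} [NeZero n] (μ : ZMod n → ℝ) : Prop :=
  (∀ x, 0 ≤ μ x) ∧ ∑ x, μ x = 1

/-- The support of `μ` is not contained in a coset of a proper subgroup of `ℤ/n`. -/
def Ergodic {n : ℕ} (μ : ZMod n → ℝ) : Prop :=
  ∀ (H : AddSubgroup (ZMod n)) (a : ZMod n), (∀ x, μ x ≠ 0 → x - a ∈ H) → H = ⊤

/-- The convolution power `μ^{*t}`: the law at time `t` of the walk with step law `μ` started
at `0`. -/
noncomputable def convPow {n : ℕ} [NeZero n] (μ : ZMod n → ℝ) : ℕ → ZMod n → ℝ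
  | 0, x => if x = 0 then 1 else 0
  | t + 1, x => ∑ y, convPow μ t y * μ (x - y)

/-- The total variation distance of `μ^{*t}` and the uniform law of `ℤ/n`. -/
noncomputable def tv {n : ℕ} [NeZero n] (μ : ZMod n → ℝ) (t : ℕ) : ℝ :=
  1 / 2 * ∑ x, |convPow μ t x - 1 / n|

/-- The mixing time `T_mix(ε) = min {t : ‖μ^{*t} - π‖ ≤ ε}`. -/
noncomputable def mixTime {n : ℕ} [NeZero n] (μ : ZMod n → ℝ) (ε : ℝ) : ℕ :=
  sInf {t : ℕ | tv μ t ≤ ε}

/-- The eigenvalue `∑_x μ(x) e^{2πijx/n}`. -/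
noncomputable def eig {n : ℕ} [NeZero n] (μ : ZMod n → ℝ) (j : ZMod n) : ℂ :=
  ∑ x : ZMod n, (μ x : ℂ) * Complex.exp (2 * Real.pi * Complex.I * (j.val * x.val) / n)

/-- The relaxation time: the inverse of the spectral gap `1 - max_{j ≠ 0} |eig μ j|`. -/
noncomputable def relTime {n : ℕ} [NeZero n] (μ : ZMod n → ℝ) : ℝ :=
  1 / (1 - ⨆ j : {j : ZMod n // j ≠ 0}, ‖eig μ j‖)

/-- `T_rel / T_mix(1/2) → 0`. -/
def ProductCondition (n : ℕ → ℕ) [∀ k, NeZero (n k)] (μ : ∀ k, ZMod (n k) → ℝ) : Prop :=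
  Tendsto (fun k => relTime (μ k) / (mixTime (μ k) (1 / 2) : ℝ)) atTop (𝓝 0)

/-- `T_mix(ε) / T_mix(1 - ε) → 1` for every `ε ∈ (0, 1/2)`. -/
def HasCutoff (n : ℕ → ℕ) [∀ k, NeZero (n k)] (μ : ∀ k, ZMod (n k) → ℝ) : Prop :=
  ∀ ε : ℝ, 0 < ε → ε < 1 / 2 →
    Tendsto (fun k => (mixTime (μ k) ε : ℝ) / (mixTime (μ k) (1 - ε) : ℝ)) atTop (𝓝 1)

/-! ### Perturbation by the uniform law -/

section perturb

variable {n : ℕ} [NeZero n]

lemma sum_uniform : ∑ _x : ZMod n, (1 / (n : ℝ)) = 1 := by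
  have hn : (n : ℝ) ≠ 0 := by exact_mod_cast NeZero.ne n
  rw [sum_const, card_univ, ZMod.card, nsmul_eq_mul]
  field_simp

lemma sum_shift (f : ZMod n → ℝ) (x : ZMod n) : ∑ y, f (x - y) = ∑ y, f y :=
  Fintype.sum_equiv (Equiv.subLeft x) _ _ (fun _ => rfl)

lemma convPow_sum {μ : ZMod n → ℝ} (h : IsLaw μ) (t : ℕ) : ∑ x, convPow μ t x = 1 := by
  induction t with
  | zero => simp [convPow]
  | succ t ih =>
    simp only [convPow]
    rw [sum_comm]
    have : ∀ y : ZMod n, ∑ x, convPow μ t y * μ (x - y) = convPow μ t y := by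
      intro y
      rw [← mul_sum, Fintype.sum_equiv (Equiv.subRight y) (fun x => μ (x - y)) μ (fun _ => rfl),
        h.2, mul_one]
    rw [sum_congr rfl (fun y _ => this y), ih]

/-- The mixture of `μ` and the uniform law. -/
noncomputable def pert (ε : ℝ) (μ : ZMod n → ℝ) (x : ZMod n) : ℝ := (1 - ε) * μ x + ε * (1 / n)

lemma convPow_pert {μ : ZMod n → ℝ} (h : IsLaw μ) (ε : ℝ) (t : ℕ) (x : ZMod n) :
    convPow (pert ε μ) t x = (1 - ε) ^ t * convPow μ t x + (1 - (1 - ε) ^ t) * (1 / n) := by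
  induction t generalizing x with
  | zero => simp [convPow]
  | succ t ih =>
    simp only [convPow]
    have h1 : ∀ y, convPow (pert ε μ) t y * pert ε μ (x - y) =
        (1 - ε) ^ (t + 1) * (convPow μ t y * μ (x - y))
        + (1 - ε) ^ t * ε * (1 / n) * convPow μ t y
        + (1 - (1 - ε) ^ t) * (1 / n) * (1 - ε) * μ (x - y)
        + (1 - (1 - ε) ^ t) * ε * (1 / n) * (1 / n) := by
      intro y
      rw [ih, pert]
      ring
    rw [sum_congr rfl (fun y _ => h1 y), sum_add_distrib, sum_add_distrib, sum_add_distrib,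
      ← mul_sum, ← mul_sum, ← mul_sum, ← mul_sum, convPow_sum h, sum_shift, h.2, sum_uniform]
    ring

lemma tv_pert {μ : ZMod n → ℝ} (h : IsLaw μ) {ε : ℝ} (hε : ε ≤ 1) (t : ℕ) :
    tv (pert ε μ) t = (1 - ε) ^ t * tv μ t := by
  unfold tv
  have h0 : 0 ≤ (1 - ε) ^ t := pow_nonneg (by linarith) t
  have h1 : ∀ x, |convPow (pert ε μ) t x - 1 / n| = (1 - ε) ^ t * |convPow μ t x - 1 / n| := by
    intro x
    rw [convPow_pert h]
    have : (1 - ε) ^ t * convPow μ t x + (1 - (1 - ε) ^ t) * (1 / (n : ℝ)) - 1 / n =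
        (1 - ε) ^ t * (convPow μ t x - 1 / n) := by ring
    rw [this, abs_mul, abs_of_nonneg h0]
  rw [sum_congr rfl (fun x _ => h1 x), ← mul_sum]
  ring

lemma convPow_nonneg {μ : ZMod n → ℝ} (h : IsLaw μ) (t : ℕ) (x : ZMod n) :
    0 ≤ convPow μ t x := by
  induction t generalizing x with
  | zero => simp only [convPow]; split_ifs <;> norm_num
  | succ t ih =>
    simp only [convPow]
    exact sum_nonneg fun y _ => mul_nonneg (ih y) (h.1 _)

lemma tv_le_one {μ : ZMod n → ℝ} (h : IsLaw μ) (t : ℕ) : tv μ t ≤ 1 := by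
  unfold tv
  have h1 : ∑ x, |convPow μ t x - 1 / n| ≤ ∑ x, (convPow μ t x + 1 / (n : ℝ)) := by
    refine sum_le_sum fun x _ => ?_
    have h2 := convPow_nonneg h t x
    have h3 : (0 : ℝ) ≤ 1 / n := by positivity
    rw [abs_le]
    constructor <;> linarith
  rw [sum_add_distrib, convPow_sum h, sum_uniform] at h1
  linarith

lemma eig_eq (μ : ZMod n → ℝ) (j : ZMod n) :
    eig μ j = ∑ x : ZMod n, (μ x : ℂ) * ZMod.stdAddChar (j * x) := by
  unfold eig
  refine sum_congr rfl fun x _ => ?_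
  congr 1
  have h1 : j * x = (((j.val : ℤ) * (x.val : ℤ) : ℤ) : ZMod n) := by
    push_cast
    rw [ZMod.natCast_zmod_val, ZMod.natCast_zmod_val]
  rw [h1, ZMod.stdAddChar_coe]
  push_cast
  ring_nf

lemma sum_char {j : ZMod n} (hj : j ≠ 0) : ∑ x : ZMod n, ZMod.stdAddChar (j * x) = (0 : ℂ) := by
  have h := AddChar.sum_mulShift (R' := ℂ) j (ZMod.isPrimitive_stdAddChar n)
  rw [if_neg hj] at h
  rw [← Nat.cast_zero, ← h]
  refine sum_congr rfl fun x _ => ?_
  rw [mul_comm]

lemma eig_pert (μ : ZMod n → ℝ) (ε : ℝ) {j : ZMod n} (hj : j ≠ 0) :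
    eig (pert ε μ) j = (1 - ε : ℝ) * eig μ j := by
  rw [eig_eq, eig_eq, mul_sum]
  have h1 : ∀ x : ZMod n, ((pert ε μ x : ℝ) : ℂ) * ZMod.stdAddChar (j * x) =
      ((1 - ε : ℝ) : ℂ) * ((μ x : ℂ) * ZMod.stdAddChar (j * x))
        + ((ε * (1 / n) : ℝ) : ℂ) * ZMod.stdAddChar (j * x) := by
    intro x
    unfold pert
    push_cast
    ring
  rw [sum_congr rfl (fun x _ => h1 x), sum_add_distrib, ← mul_sum, ← mul_sum, sum_char hj]
  simp

end perturb

/-! ### The product walk -/

section product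

variable {m : ℕ} (a : Fin m → ℕ) (hc : Pairwise (Function.onFun Nat.Coprime a))

/-- The law of the unperturbed step: every coordinate is independently left unchanged with
probability `1/2` and replaced by a uniform element otherwise; more generally with probability
`c` instead of `1/2`. -/
noncomputable def base (c : ℝ) (x : ZMod (∏ i, a i)) : ℝ :=
  ∏ i, (c * (if ZMod.prodEquivPi a hc x i = 0 then 1 else 0) + (1 - c) * (1 / (a i : ℝ)))

variable {a}

lemma sum_prod [NeZero (∏ i, a i)] [∀ i, NeZero (a i)]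
    (f : ∀ i, ZMod (a i) → ℝ) :
    ∑ x : ZMod (∏ i, a i), ∏ i, f i (ZMod.prodEquivPi a hc x i) = ∏ i, ∑ z, f i z := by
  rw [Fintype.prod_sum]
  exact Fintype.sum_equiv (ZMod.prodEquivPi a hc).toEquiv _ _ (fun x => rfl)

lemma coord (b : ℕ) [NeZero b] (c c' : ℝ) (y : ZMod b) :
    ∑ z : ZMod b, (c * (if z = 0 then 1 else 0) + (1 - c) * (1 / (b : ℝ))) *
      (c' * (if y - z = 0 then 1 else 0) + (1 - c') * (1 / (b : ℝ))) =
    (c * c') * (if y = 0 then 1 else 0) + (1 - c * c') * (1 / (b : ℝ)) := by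
  have h1 : ∀ z : ZMod b, (c * (if z = 0 then 1 else 0) + (1 - c) * (1 / (b : ℝ))) *
      (c' * (if y - z = 0 then 1 else 0) + (1 - c') * (1 / (b : ℝ))) =
      (if z = 0 then c * (c' * (if y - z = 0 then 1 else 0) + (1 - c') * (1 / (b : ℝ))) else 0)
      + (if z = y then (1 - c) * (1 / (b : ℝ)) * c' else 0)
      + (1 - c) * (1 - c') * (1 / (b : ℝ)) * (1 / (b : ℝ)) := by
    intro z
    have h2 : (y - z = 0) ↔ (z = y) := by rw [sub_eq_zero]; exact eq_comm
    simp only [h2]
    split_ifs <;> ring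
  rw [sum_congr rfl (fun z _ => h1 z), sum_add_distrib, sum_add_distrib, sum_ite_eq' univ,
    sum_ite_eq' univ, ← mul_sum, sum_uniform]
  simp only [mem_univ, if_true, sub_zero]
  ring

lemma base_conv [NeZero (∏ i, a i)] [∀ i, NeZero (a i)] (c c' : ℝ)
    (x : ZMod (∏ i, a i)) :
    ∑ y, base a hc c y * base a hc c' (x - y) = base a hc (c * c') x := by
  unfold base
  simp only [← prod_mul_distrib, map_sub, Pi.sub_apply]
  rw [sum_prod hc (fun i z => (c * (if z = 0 then 1 else 0) + (1 - c) * (1 / (a i : ℝ))) *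
      (c' * (if ZMod.prodEquivPi a hc x i - z = 0 then 1 else 0) + (1 - c') * (1 / (a i : ℝ))))]
  exact prod_congr rfl fun i _ => coord (a i) c c' _

lemma base_one [NeZero (∏ i, a i)] (x : ZMod (∏ i, a i)) :
    base a hc 1 x = if x = 0 then 1 else 0 := by
  unfold base
  simp only [one_mul, sub_self, zero_mul, add_zero]
  rw [prod_ite_zero]
  simp only [prod_const_one, mem_univ, true_implies]
  congr 1
  rw [eq_iff_iff]
  constructor
  · intro h
    have : ZMod.prodEquivPi a hc x = 0 := funext h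
    simpa using this
  · rintro rfl i
    simp

lemma base_pow [NeZero (∏ i, a i)] [∀ i, NeZero (a i)] (c : ℝ) (t : ℕ)
    (x : ZMod (∏ i, a i)) : convPow (base a hc c) t x = base a hc (c ^ t) x := by
  induction t generalizing x with
  | zero => rw [pow_zero, base_one]; rfl
  | succ t ih =>
    simp only [convPow]
    rw [pow_succ, ← base_conv hc]
    exact sum_congr rfl fun y _ => by rw [ih]

lemma w_nonneg {c : ℝ} (h0 : 0 ≤ c) (h1 : c ≤ 1) (P : Prop) [Decidable P] (b : ℕ) :
    0 ≤ c * (if P then 1 else 0) + (1 - c) * (1 / (b : ℝ)) := by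
  have h2 : 0 ≤ (1 - c) * (1 / (b : ℝ)) := mul_nonneg (by linarith) (by positivity)
  split_ifs
  · linarith
  · linarith

lemma base_law [NeZero (∏ i, a i)] [∀ i, NeZero (a i)] {c : ℝ}
    (h0 : 0 ≤ c) (h1 : c ≤ 1) : IsLaw (base a hc c) := by
  constructor
  · intro x
    unfold base
    exact prod_nonneg fun i _ => w_nonneg h0 h1 _ _
  · unfold base
    rw [sum_prod hc (fun i z => c * (if z = 0 then 1 else 0) + (1 - c) * (1 / (a i : ℝ)))]
    refine prod_eq_one fun i _ => ?_
    rw [sum_add_distrib, ← mul_sum, ← mul_sum, sum_uniform]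
    simp

lemma base_neg [NeZero (∏ i, a i)] (c : ℝ) (x : ZMod (∏ i, a i)) :
    base a hc c (-x) = base a hc c x := by
  unfold base
  refine prod_congr rfl fun i _ => ?_
  rw [map_neg, Pi.neg_apply]
  simp only [neg_eq_zero]

/-- Lower bound for the distance of the product law from the uniform law. -/
lemma base_tv [NeZero (∏ i, a i)] [∀ i, NeZero (a i)] (c : ℝ) (t : ℕ)
    (h0 : 0 ≤ c) (h1 : c ≤ 1) :
    (∏ i, (1 - 1 / (a i : ℝ))) * (1 - (1 - c ^ t) ^ m) ≤ tv (base a hc c) t := by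
  have hct0 : 0 ≤ c ^ t := pow_nonneg h0 t
  have hct1 : c ^ t ≤ 1 := pow_le_one₀ h0 h1
  -- the sum over the points without zero coordinate
  set g : ZMod (∏ i, a i) → ℝ := fun x =>
    ∏ i, (if ZMod.prodEquivPi a hc x i = 0 then (0 : ℝ) else 1) with hg
  have hg01 : ∀ x, 0 ≤ g x ∧ g x ≤ 1 := by
    intro x
    constructor
    · exact prod_nonneg fun i _ => by split_ifs <;> norm_num
    · exact prod_le_one (fun i _ => by split_ifs <;> norm_num)
        (fun i _ => by split_ifs <;> norm_num)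
  have hlaw := base_law hc h0 h1
  have hs0 : ∑ x, (convPow (base a hc c) t x - 1 / ((∏ i, a i : ℕ) : ℝ)) = 0 := by
    rw [sum_sub_distrib, convPow_sum hlaw, sum_uniform, sub_self]
  -- the test function
  have hA : ∑ x, g x * (1 / ((∏ i, a i : ℕ) : ℝ) - convPow (base a hc c) t x) =
      (∏ i, (1 - 1 / (a i : ℝ))) * (1 - (1 - c ^ t) ^ m) := by
    have h2 : ∀ x, g x * (1 / ((∏ i, a i : ℕ) : ℝ) - convPow (base a hc c) t x) =
        (1 - (1 - c ^ t) ^ m) *
          ∏ i, ((if ZMod.prodEquivPi a hc x i = 0 then (0 : ℝ) else 1) * (1 / (a i : ℝ))) := by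
      intro x
      rw [base_pow hc, prod_mul_distrib]
      by_cases hx : ∃ i, ZMod.prodEquivPi a hc x i = 0
      · obtain ⟨i, hi⟩ := hx
        have : g x = 0 := prod_eq_zero (mem_univ i) (by rw [if_pos hi])
        have h3 : ∏ i, (if ZMod.prodEquivPi a hc x i = 0 then (0 : ℝ) else 1) = 0 := this
        rw [this, h3]
        ring
      · push Not at hx
        have : g x = 1 := prod_eq_one fun i _ => by rw [if_neg (hx i)]
        have h3 : ∏ i, (if ZMod.prodEquivPi a hc x i = 0 then (0 : ℝ) else 1) = 1 := this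
        rw [this, h3]
        unfold base
        have h4 : ∏ i, (c ^ t * (if ZMod.prodEquivPi a hc x i = 0 then 1 else 0) +
            (1 - c ^ t) * (1 / (a i : ℝ))) = (1 - c ^ t) ^ m * ∏ i, (1 / (a i : ℝ)) := by
          rw [← Fin.prod_const m (1 - c ^ t), ← prod_mul_distrib]
          refine prod_congr rfl fun i _ => ?_
          rw [if_neg (hx i)]
          ring
        rw [h4]
        have h5 : 1 / ((∏ i, a i : ℕ) : ℝ) = ∏ i, (1 / (a i : ℝ)) := by
          rw [prod_div_distrib, prod_const_one]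
          push_cast
          rfl
        rw [h5]
        ring
    rw [sum_congr rfl (fun x _ => h2 x), ← mul_sum,
      sum_prod hc (fun i z => (if z = 0 then (0 : ℝ) else 1) * (1 / (a i : ℝ))), mul_comm]
    congr 1
    refine prod_congr rfl fun i _ => ?_
    have h6 : ∀ z : ZMod (a i), (if z = 0 then (0 : ℝ) else 1) * (1 / (a i : ℝ)) =
        1 / (a i : ℝ) - (if z = 0 then 1 / (a i : ℝ) else 0) := by
      intro z
      split_ifs <;> ring
    rw [sum_congr rfl (fun z _ => h6 z), sum_sub_distrib, sum_uniform, sum_ite_eq' univ,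
      if_pos (mem_univ _)]
  have hB : ∑ x, g x * (1 / ((∏ i, a i : ℕ) : ℝ) - convPow (base a hc c) t x) ≤
      tv (base a hc c) t := by
    unfold tv
    have h7 : ∀ x, g x * (1 / ((∏ i, a i : ℕ) : ℝ) - convPow (base a hc c) t x) ≤
        1 / 2 * |convPow (base a hc c) t x - 1 / ((∏ i, a i : ℕ) : ℝ)|
          - 1 / 2 * (convPow (base a hc c) t x - 1 / ((∏ i, a i : ℕ) : ℝ)) := by
      intro x
      obtain ⟨g0, g1⟩ := hg01 x
      rcases le_total 0 (convPow (base a hc c) t x - 1 / ((∏ i, a i : ℕ) : ℝ)) with h8 | h8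
      · rw [abs_of_nonneg h8]
        nlinarith
      · rw [abs_of_nonpos h8]
        nlinarith
    refine (sum_le_sum fun x _ => h7 x).trans ?_
    rw [sum_sub_distrib, ← mul_sum, ← mul_sum, hs0]
    linarith
  linarith

/-- The nontrivial eigenvalues of the product walk are at most `c` in absolute value. -/
lemma base_eig [NeZero (∏ i, a i)] [∀ i, NeZero (a i)] {c : ℝ}
    (h0 : 0 ≤ c) (h1 : c ≤ 1) {j : ZMod (∏ i, a i)} (hj : j ≠ 0) :
    ‖eig (base a hc c) j‖ ≤ c := by
  classical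
  set e := ZMod.prodEquivPi a hc with he
  -- a coordinate on which the character is not trivial
  obtain ⟨i, g, hg⟩ : ∃ (i : Fin m) (g : ZMod (a i)),
      (ZMod.stdAddChar (j * e.symm (Pi.single i g)) : ℂ) ≠ 1 := by
    by_contra hno
    push Not at hno
    apply hj
    have hall : ∀ x : ZMod (∏ i, a i), (ZMod.stdAddChar (j * x) : ℂ) = 1 := by
      intro x
      have hx : x = ∑ i, e.symm (Pi.single i (e x i)) := by
        rw [← map_sum, univ_sum_single, RingEquiv.symm_apply_apply]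
      rw [hx, mul_sum]
      refine Finset.sum_induction _ (fun z => (ZMod.stdAddChar z : ℂ) = 1) ?_ ?_ ?_
      · intro u v hu hv
        rw [AddChar.map_add_eq_mul, hu, hv, one_mul]
      · exact AddChar.map_zero_eq_one _
      · intro i _
        exact hno i _
    have h2 := ZMod.isPrimitive_stdAddChar (∏ i, a i)
    by_contra hj'
    apply h2 hj'
    ext x
    rw [AddChar.mulShift_apply, hall, AddChar.one_apply]
  set w : ZMod (∏ i, a i) := e.symm (Pi.single i g) with hw
  set R : ZMod (∏ i, a i) → ℝ := fun x => ∏ l ∈ univ.erase i,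
    (c * (if e x l = 0 then 1 else 0) + (1 - c) * (1 / (a l : ℝ))) with hR
  have hR0 : ∀ x, 0 ≤ R x := by
    intro x
    exact prod_nonneg fun l _ => w_nonneg h0 h1 _ _
  have hsplit : ∀ x, base a hc c x =
      c * ((if e x i = 0 then 1 else 0) * R x) + (1 - c) * (1 / (a i : ℝ)) * R x := by
    intro x
    unfold base
    rw [← mul_prod_erase univ _ (mem_univ i)]
    ring
  have hRw : ∀ x, R (x + w) = R x := by
    intro x
    refine prod_congr rfl fun l hl => ?_
    have : e (x + w) l = e x l := by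
      rw [map_add, Pi.add_apply, hw, RingEquiv.apply_symm_apply,
        Pi.single_eq_of_ne (ne_of_mem_erase hl), add_zero]
    rw [this]
  have hzero : ∑ x, (R x : ℂ) * ZMod.stdAddChar (j * x) = 0 := by
    have h3 : ∑ x, (R x : ℂ) * ZMod.stdAddChar (j * x) =
        ZMod.stdAddChar (j * w) * ∑ x, (R x : ℂ) * ZMod.stdAddChar (j * x) := by
      conv_lhs => rw [← Equiv.sum_comp (Equiv.addRight w)]
      rw [mul_sum]
      refine sum_congr rfl fun x _ => ?_
      rw [Equiv.coe_addRight, hRw, mul_add, AddChar.map_add_eq_mul]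
      ring
    by_contra hne
    apply hg
    have h4 := mul_right_cancel₀ hne ((one_mul _).trans h3)
    exact h4.symm
  have hsumI : ∑ x, ((if e x i = 0 then 1 else 0) * R x) = 1 := by
    have h5 : ∀ x, ((if e x i = 0 then 1 else 0) * R x) = ∏ l,
        ((if l = i then 1 else c) * (if e x l = 0 then 1 else 0) +
          (1 - if l = i then 1 else c) * (1 / (a l : ℝ))) := by
      intro x
      have h8 := mul_prod_erase univ (fun l => ((if l = i then 1 else c) *
        (if e x l = 0 then 1 else 0) + (1 - if l = i then 1 else c) * (1 / (a l : ℝ))))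
        (mem_univ i)
      rw [← h8]
      congr 1
      · simp
      · refine prod_congr rfl fun l hl => ?_
        rw [if_neg (ne_of_mem_erase hl)]
    rw [sum_congr rfl (fun x _ => h5 x),
      sum_prod hc (fun l z => (if l = i then 1 else c) * (if z = 0 then 1 else 0) +
          (1 - if l = i then 1 else c) * (1 / (a l : ℝ)))]
    refine prod_eq_one fun l _ => ?_
    rw [sum_add_distrib, ← mul_sum, ← mul_sum, sum_uniform]
    simp
  have hfin : eig (base a hc c) j =
      ∑ x, ((c * ((if e x i = 0 then 1 else 0) * R x) : ℝ) : ℂ) * ZMod.stdAddChar (j * x) := by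
    rw [eig_eq]
    have h6 : ∀ x, ((base a hc c x : ℝ) : ℂ) * ZMod.stdAddChar (j * x) =
        ((c * ((if e x i = 0 then 1 else 0) * R x) : ℝ) : ℂ) * ZMod.stdAddChar (j * x)
          + (((1 - c) * (1 / (a i : ℝ)) : ℝ) : ℂ) * ((R x : ℂ) * ZMod.stdAddChar (j * x)) := by
      intro x
      rw [hsplit x]
      push_cast
      ring
    rw [sum_congr rfl (fun x _ => h6 x), sum_add_distrib, ← mul_sum, hzero, mul_zero, add_zero]
  rw [hfin]
  refine (norm_sum_le _ _).trans ?_
  have h7 : ∀ x : ZMod (∏ i, a i),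
      ‖((c * ((if e x i = 0 then 1 else 0) * R x) : ℝ) : ℂ) * ZMod.stdAddChar (j * x)‖ =
        c * ((if e x i = 0 then 1 else 0) * R x) := by
    intro x
    rw [norm_mul, Complex.norm_real, AddChar.norm_apply, mul_one, Real.norm_of_nonneg]
    have := hR0 x
    positivity
  rw [sum_congr rfl (fun x _ => h7 x), ← mul_sum, hsumI, mul_one]

end product

/-! ### The sequence -/

/-- the number of factors -/
def mm (T : ℕ) : ℕ := 4 ^ T

/-- the factors -/
def aa (T : ℕ) (i : Fin (mm T)) : ℕ := Nat.fermatNumber (2 * mm T + i)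

lemma aa_coprime (T : ℕ) : Pairwise (Function.onFun Nat.Coprime (aa T)) := by
  intro i j hij
  refine Nat.coprime_fermatNumber_fermatNumber ?_
  intro h
  exact hij (Fin.ext (by omega))

lemma aa_ge (T : ℕ) (i : Fin (mm T)) : 2 ^ (2 * mm T) ≤ aa T i := by
  unfold aa Nat.fermatNumber
  have h1 : 2 * mm T + i < 2 ^ (2 * mm T + i) := Nat.lt_two_pow_self
  have h2 : 2 ^ (2 * mm T) ≤ 2 ^ 2 ^ (2 * mm T + i) :=
    Nat.pow_le_pow_right (by norm_num) (by omega)
  omega

instance (T : ℕ) (i : Fin (mm T)) : NeZero (aa T i) :=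
  ⟨by
    have h1 := aa_ge T i
    have h2 : 0 < 2 ^ (2 * mm T) := by positivity
    omega⟩

/-- the length of the cycle -/
def nn (T : ℕ) : ℕ := ∏ i, aa T i

instance (T : ℕ) : NeZero (∏ i, aa T i) :=
  ⟨prod_ne_zero_iff.2 fun i _ => NeZero.ne (aa T i)⟩

instance (T : ℕ) : NeZero (nn T) := inferInstanceAs (NeZero (∏ i, aa T i))

lemma mm_pos (T : ℕ) : 0 < mm T := by unfold mm; positivity

lemma le_mm (T : ℕ) : T ≤ mm T := (Nat.lt_pow_self (by norm_num : 1 < 4)).le

lemma le_nn (T : ℕ) : 2 + T ≤ nn T := by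
  have h1 : aa T ⟨0, mm_pos T⟩ ∣ nn T := dvd_prod_of_mem _ (mem_univ _)
  have h2 := Nat.le_of_dvd (Nat.pos_of_ne_zero (NeZero.ne _)) h1
  have h3 := aa_ge T ⟨0, mm_pos T⟩
  have h4 := le_mm T
  have h5 := mm_pos T
  have h6 : 2 * mm T < 2 ^ (2 * mm T) := Nat.lt_two_pow_self
  rcases Nat.eq_zero_or_pos T with h7 | h7
  · omega
  · have h8 : 4 ≤ mm T := by
      unfold mm
      calc 4 = 4 ^ 1 := rfl
        _ ≤ 4 ^ T := Nat.pow_le_pow_right (by norm_num) h7
    omega

/-- the unperturbed step law -/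
noncomputable def bb (T : ℕ) : ZMod (nn T) → ℝ := base (aa T) (aa_coprime T) (1 / 2)

/-- the step law -/
noncomputable def step (T : ℕ) : ZMod (nn T) → ℝ := pert (1 / (T : ℝ)) (bb T)

lemma bb_law (T : ℕ) : IsLaw (bb T) := base_law (aa_coprime T) (by norm_num) (by norm_num)

lemma bb_tv {T t : ℕ} (hT : 10 ≤ T) (ht : t ≤ T) : 49 / 50 ≤ tv (bb T) t := by
  have h := base_tv (aa_coprime T) (1 / 2) t (by norm_num) (by norm_num)
  refine le_trans ?_ h
  have hm : (1000000 : ℝ) ≤ mm T := by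
    have : 4 ^ 10 ≤ mm T := Nat.pow_le_pow_right (by norm_num) hT
    have h2 : (1000000 : ℕ) ≤ mm T := le_trans (by norm_num) this
    exact_mod_cast h2
  -- first factor
  have h1 : 999 / 1000 ≤ ∏ i, (1 - 1 / (aa T i : ℝ)) := by
    have hA : (0 : ℝ) < 2 ^ (2 * mm T) := by positivity
    have h2 : ∀ i ∈ (univ : Finset (Fin (mm T))),
        1 - 1 / (2 : ℝ) ^ (2 * mm T) ≤ 1 - 1 / (aa T i : ℝ) := by
      intro i _
      have h3 : ((2 : ℝ) ^ (2 * mm T)) ≤ aa T i := by exact_mod_cast aa_ge T i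
      have := one_div_le_one_div_of_le hA h3
      linarith
    have hA1 : 1 / (2 : ℝ) ^ (2 * mm T) ≤ 1 := by
      rw [div_le_one hA]
      exact one_le_pow₀ (by norm_num)
    have h4 : (1 - 1 / (2 : ℝ) ^ (2 * mm T)) ^ mm T ≤ ∏ i, (1 - 1 / (aa T i : ℝ)) := by
      rw [← Fin.prod_const (mm T)]
      exact prod_le_prod (fun i _ => by linarith) h2
    refine le_trans ?_ h4
    have h5 := one_add_mul_le_pow (a := -(1 / (2 : ℝ) ^ (2 * mm T))) (by linarith) (mm T)
    rw [← sub_eq_add_neg] at h5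
    refine le_trans ?_ h5
    have h6 : (mm T : ℝ) * (1 / (2 : ℝ) ^ (2 * mm T)) ≤ 1 / mm T := by
      have h7 : (mm T : ℝ) ≤ 2 ^ mm T := by exact_mod_cast Nat.lt_two_pow_self.le
      have h8 : (2 : ℝ) ^ (2 * mm T) = 2 ^ mm T * 2 ^ mm T := by rw [two_mul, pow_add]
      rw [h8, mul_one_div, div_le_div_iff₀ (by positivity) (by linarith)]
      nlinarith
    have h9 : 1 / (mm T : ℝ) ≤ 1 / 1000000 := one_div_le_one_div_of_le (by norm_num) hm
    linarith
  -- second factor
  have h2 : (1 - (1 / 2 : ℝ) ^ t) ^ mm T ≤ 1 / 1000 := by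
    have hp0 : (0 : ℝ) < (1 / 2) ^ t := by positivity
    have hp1 : (1 / 2 : ℝ) ^ t ≤ 1 := pow_le_one₀ (by norm_num) (by norm_num)
    have h3 : (1 - (1 / 2 : ℝ) ^ t) ^ mm T ≤ Real.exp (-(1 / 2 : ℝ) ^ t) ^ mm T :=
      pow_le_pow_left₀ (by linarith) (Real.one_sub_le_exp_neg _) _
    have h4 : Real.exp (-(1 / 2 : ℝ) ^ t) ^ mm T = Real.exp (-((mm T : ℝ) * (1 / 2) ^ t)) := by
      rw [← Real.exp_nat_mul]
      congr 1
      ring
    have h5 : (1023 : ℝ) ≤ (mm T : ℝ) * (1 / 2) ^ t := by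
      have h6 : (1 / 2 : ℝ) ^ T ≤ (1 / 2) ^ t :=
        pow_le_pow_of_le_one (by norm_num) (by norm_num) ht
      have h7 : (mm T : ℝ) * (1 / 2) ^ T = 2 ^ T := by
        unfold mm
        push_cast
        rw [← mul_pow]
        norm_num
      have h8 : (2 : ℝ) ^ 10 ≤ 2 ^ T := pow_le_pow_right₀ (by norm_num) hT
      have h9 : (mm T : ℝ) * (1 / 2) ^ T ≤ (mm T : ℝ) * (1 / 2) ^ t :=
        mul_le_mul_of_nonneg_left h6 (by linarith)
      norm_num at h8
      linarith
    rw [h4] at h3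
    refine h3.trans ?_
    rw [Real.exp_neg, ← one_div]
    refine one_div_le_one_div_of_le (by norm_num) ?_
    have := Real.add_one_le_exp ((mm T : ℝ) * (1 / 2) ^ t)
    linarith
  nlinarith

lemma step_law {T : ℕ} (hT : 10 ≤ T) : IsLaw (step T) ∧ ∀ x, 0 < step T x := by
  have hT' : (10 : ℝ) ≤ T := by exact_mod_cast hT
  have h1 : 1 / (T : ℝ) ≤ 1 / 10 := one_div_le_one_div_of_le (by norm_num) hT'
  have h2 : 0 < 1 / (T : ℝ) := by positivity
  have hn : (0 : ℝ) < nn T := by exact_mod_cast Nat.pos_of_ne_zero (NeZero.ne (nn T))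
  have h3 := bb_law T
  have hpos : ∀ x, 0 < step T x := by
    intro x
    unfold step pert
    have := h3.1 x
    have h4 : 0 ≤ (1 - 1 / (T : ℝ)) * bb T x := mul_nonneg (by linarith) this
    have h5 : 0 < 1 / (T : ℝ) * (1 / (nn T : ℝ)) := by positivity
    linarith
  refine ⟨⟨fun x => (hpos x).le, ?_⟩, hpos⟩
  unfold step pert
  rw [sum_add_distrib, ← mul_sum, ← mul_sum, h3.2, sum_uniform]
  ring

lemma bb_neg (T : ℕ) (x : ZMod (nn T)) : bb T (-x) = bb T x := base_neg (aa_coprime T) (1 / 2) x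

lemma step_neg (T : ℕ) (x : ZMod (nn T)) : step T (-x) = step T x := by
  unfold step pert
  rw [bb_neg]

lemma step_tv {T : ℕ} (hT : 10 ≤ T) (t : ℕ) :
    tv (step T) t = (1 - 1 / (T : ℝ)) ^ t * tv (bb T) t := by
  have hT' : (10 : ℝ) ≤ T := by exact_mod_cast hT
  refine tv_pert (bb_law T) ?_ t
  rw [div_le_one (by linarith)]
  linarith

lemma step_tv_ge {T t : ℕ} (hT : 10 ≤ T) (ht : t ≤ T) :
    (1 - (t : ℝ) / T) * (49 / 50) ≤ tv (step T) t := by
  have hT' : (10 : ℝ) ≤ T := by exact_mod_cast hT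
  have ht' : (t : ℝ) ≤ T := by exact_mod_cast ht
  have h0 : 1 / (T : ℝ) ≤ 1 := by rw [div_le_one (by linarith)]; linarith
  have h1 := one_add_mul_le_pow (a := -(1 / (T : ℝ))) (by linarith) t
  have h2 : 1 + (t : ℝ) * -(1 / (T : ℝ)) = 1 - (t : ℝ) / T := by ring
  rw [h2, ← sub_eq_add_neg] at h1
  have h3 : 0 ≤ 1 - (t : ℝ) / T := by
    rw [sub_nonneg, div_le_one (by linarith)]
    exact ht'
  have h4 := bb_tv hT ht
  rw [step_tv hT]
  exact mul_le_mul h1 h4 (by norm_num) (pow_nonneg (by linarith) _)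

lemma step_tv_le {T t : ℕ} (hT : 10 ≤ T) :
    tv (step T) t ≤ Real.exp (-((t : ℝ) / T)) := by
  have hT' : (10 : ℝ) ≤ T := by exact_mod_cast hT
  have h0 : 1 / (T : ℝ) ≤ 1 := by rw [div_le_one (by linarith)]; linarith
  rw [step_tv hT]
  have h1 : (1 - 1 / (T : ℝ)) ^ t ≤ Real.exp (-(1 / (T : ℝ))) ^ t :=
    pow_le_pow_left₀ (by linarith) (Real.one_sub_le_exp_neg _) _
  have h2 : Real.exp (-(1 / (T : ℝ))) ^ t = Real.exp (-((t : ℝ) / T)) := by
    rw [← Real.exp_nat_mul]
    congr 1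
    ring
  have h3 := tv_le_one (bb_law T) t
  have h4 : 0 ≤ (1 - 1 / (T : ℝ)) ^ t := pow_nonneg (by linarith) _
  rw [h2] at h1
  nlinarith

lemma exists_tv_le {T : ℕ} (hT : 10 ≤ T) {ε : ℝ} (hε : 0 < ε) : {t : ℕ | tv (step T) t ≤ ε}.Nonempty := by
  have hT' : (10 : ℝ) ≤ T := by exact_mod_cast hT
  have h0 : 0 < 1 / (T : ℝ) := by positivity
  obtain ⟨t, ht⟩ := exists_pow_lt_of_lt_one hε (show 1 - 1 / (T : ℝ) < 1 by linarith)
  refine ⟨t, ?_⟩
  have h1 : 1 / (T : ℝ) ≤ 1 := by rw [div_le_one (by linarith)]; linarith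
  have h3 := tv_le_one (bb_law T) t
  have h4 : 0 ≤ (1 - 1 / (T : ℝ)) ^ t := pow_nonneg (by linarith) _
  show tv (step T) t ≤ ε
  rw [step_tv hT]
  nlinarith

lemma mix_half {T : ℕ} (hT : 10 ≤ T) : T < 3 * mixTime (step T) (1 / 2) := by
  have hT' : (10 : ℝ) ≤ T := by exact_mod_cast hT
  have h := Nat.sInf_mem (exists_tv_le hT (ε := 1 / 2) (by norm_num))
  by_contra hle
  push Not at hle
  change tv (step T) (mixTime (step T) (1 / 2)) ≤ 1 / 2 at h
  have h1 := step_tv_ge hT (t := mixTime (step T) (1 / 2)) (by omega)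
  have h2 : ((mixTime (step T) (1 / 2) : ℕ) : ℝ) / T ≤ 1 / 3 := by
    rw [div_le_div_iff₀ (by linarith) (by norm_num)]
    have : 3 * ((mixTime (step T) (1 / 2) : ℕ) : ℝ) ≤ T := by exact_mod_cast hle
    linarith
  linarith

lemma mix_quarter {T : ℕ} (hT : 10 ≤ T) : 2 * T < 3 * mixTime (step T) (1 / 4) := by
  have hT' : (10 : ℝ) ≤ T := by exact_mod_cast hT
  have h := Nat.sInf_mem (exists_tv_le hT (ε := 1 / 4) (by norm_num))
  by_contra hle
  push Not at hle
  change tv (step T) (mixTime (step T) (1 / 4)) ≤ 1 / 4 at h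
  have h1 := step_tv_ge hT (t := mixTime (step T) (1 / 4)) (by omega)
  have h2 : ((mixTime (step T) (1 / 4) : ℕ) : ℝ) / T ≤ 2 / 3 := by
    rw [div_le_div_iff₀ (by linarith) (by norm_num)]
    have : 3 * ((mixTime (step T) (1 / 4) : ℕ) : ℝ) ≤ 2 * T := by exact_mod_cast hle
    linarith
  linarith

lemma mix_three_quarters {T : ℕ} (hT : 10 ≤ T) : 3 * mixTime (step T) (1 - 1 / 4) ≤ T + 3 := by
  have hT' : (10 : ℝ) ≤ T := by exact_mod_cast hT
  have h1 : mixTime (step T) (1 - 1 / 4) ≤ T / 3 + 1 := by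
    apply Nat.sInf_le
    show tv (step T) (T / 3 + 1) ≤ 1 - 1 / 4
    refine (step_tv_le hT).trans ?_
    have h2 : (1 : ℝ) / 3 ≤ ((T / 3 + 1 : ℕ) : ℝ) / T := by
      rw [div_le_div_iff₀ (by norm_num) (by linarith)]
      have : T ≤ 3 * (T / 3 + 1) := by omega
      have h3 : (T : ℝ) ≤ 3 * ((T / 3 + 1 : ℕ) : ℝ) := by exact_mod_cast this
      linarith
    calc Real.exp (-(((T / 3 + 1 : ℕ) : ℝ) / T)) ≤ Real.exp (-(1 / 3)) :=
          Real.exp_le_exp.2 (by linarith)
      _ ≤ 1 - 1 / 4 := by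
          rw [Real.exp_neg, inv_le_comm₀ (Real.exp_pos _) (by norm_num)]
          have := Real.add_one_le_exp (1 / 3 : ℝ)
          norm_num
          linarith
  omega

lemma rel_bounds {T : ℕ} (hT : 10 ≤ T) : 0 ≤ relTime (step T) ∧ relTime (step T) ≤ 2 := by
  have hT' : (10 : ℝ) ≤ T := by exact_mod_cast hT
  have h0 : 0 < 1 / (T : ℝ) := by positivity
  have h1 : 1 / (T : ℝ) ≤ 1 := by rw [div_le_one (by linarith)]; linarith
  have hsup : (⨆ j : {j : ZMod (nn T) // j ≠ 0}, ‖eig (step T) j‖) ≤ 1 / 2 := by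
    refine Real.iSup_le ?_ (by norm_num)
    rintro ⟨j, hj⟩
    show ‖eig (step T) j‖ ≤ 1 / 2
    unfold step
    rw [eig_pert _ _ hj, norm_mul, Complex.norm_real, Real.norm_of_nonneg (by linarith)]
    have h2 : ‖eig (bb T) j‖ ≤ 1 / 2 :=
      base_eig (aa_coprime T) (by norm_num) (by norm_num) hj
    have h3 := norm_nonneg (eig (bb T) j)
    nlinarith
  unfold relTime
  constructor
  · apply div_nonneg zero_le_one
    linarith
  · rw [div_le_iff₀ (by linarith)]
    linarith

/-- **The Peres conjecture fails for random walks on cycles.** There are cycles `ℤ/n_k`,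
`n_k → ∞`, and probability measures `μ_k` on them, symmetric and charging every element, whose
convolution walks satisfy `T_rel / T_mix(1/2) → 0` and have no total variation cutoff. -/
theorem result : ∃ (n : ℕ → ℕ) (_ : ∀ k, NeZero (n k)) (μ : ∀ k, ZMod (n k) → ℝ),
    (∀ k, 2 ≤ n k) ∧ Tendsto n atTop atTop ∧
    (∀ k, IsLaw (μ k) ∧ Ergodic (μ k) ∧ (∀ x, 0 < μ k x) ∧ ∀ x, μ k (-x) = μ k x) ∧
    ProductCondition n μ ∧ ¬ HasCutoff n μ := by
  refine ⟨fun k => nn (k + 10), fun k => inferInstance, fun k => step (k + 10), ?_, ?_, ?_, ?_, ?_⟩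
  · intro k
    have := le_nn (k + 10)
    show 2 ≤ nn (k + 10)
    omega
  · refine tendsto_atTop_mono (fun k => ?_) tendsto_id
    have := le_nn (k + 10)
    show k ≤ nn (k + 10)
    omega
  · intro k
    obtain ⟨h1, h2⟩ := step_law (show 10 ≤ k + 10 by omega)
    refine ⟨h1, ?_, h2, ?_⟩
    · intro H a h
      rw [eq_top_iff]
      intro y _
      have := h (y + a) (h2 _).ne'
      simpa using this
    · intro x
      exact step_neg (k + 10) x
  · have hlim : Tendsto (fun k : ℕ => 6 / ((k : ℝ) + 10)) atTop (𝓝 0) := by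
      refine tendsto_const_nhds.div_atTop ?_
      exact tendsto_atTop_add_const_right _ _ tendsto_natCast_atTop_atTop
    refine squeeze_zero (fun k => ?_) (fun k => ?_) hlim
    · exact div_nonneg (rel_bounds (show 10 ≤ k + 10 by omega)).1 (Nat.cast_nonneg _)
    · have h1 := (rel_bounds (show 10 ≤ k + 10 by omega))
      have h2 := mix_half (show 10 ≤ k + 10 by omega)
      have h3 : ((k + 10 : ℕ) : ℝ) < 3 * (mixTime (step (k + 10)) (1 / 2) : ℝ) := by
        exact_mod_cast h2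
      push_cast at h3
      have h4 : (0 : ℝ) < (k : ℝ) + 10 := by positivity
      show relTime (step (k + 10)) / (mixTime (step (k + 10)) (1 / 2) : ℝ) ≤ 6 / ((k : ℝ) + 10)
      rw [div_le_div_iff₀ (by linarith) h4]
      nlinarith [h1.1, h1.2]
  · intro hcut
    have h := hcut (1 / 4) (by norm_num) (by norm_num)
    have h1 := (tendsto_order.1 h).1 (1 / 2) (by norm_num)
    have h2 := (tendsto_order.1 h).2 (3 / 2) (by norm_num)
    obtain ⟨k, hk1, hk2⟩ := (h1.and h2).exists
    have hT : 10 ≤ k + 10 := by omega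
    have h3 := mix_quarter hT
    have h4 := mix_three_quarters hT
    have h3' : 2 * ((k : ℝ) + 10) < 3 * (mixTime (step (k + 10)) (1 / 4) : ℝ) := by
      have : ((2 * (k + 10) : ℕ) : ℝ) < ((3 * mixTime (step (k + 10)) (1 / 4) : ℕ) : ℝ) := by
        exact_mod_cast h3
      push_cast at this
      exact this
    have h4' : 3 * (mixTime (step (k + 10)) (1 - 1 / 4) : ℝ) ≤ (k : ℝ) + 13 := by
      have : ((3 * mixTime (step (k + 10)) (1 - 1 / 4) : ℕ) : ℝ) ≤ ((k + 10 + 3 : ℕ) : ℝ) := by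
        exact_mod_cast h4
      push_cast at this
      linarith
    have hk0 : (0 : ℝ) ≤ k := Nat.cast_nonneg k
    have h5 : (0 : ℝ) ≤ (mixTime (step (k + 10)) (1 - 1 / 4) : ℝ) := Nat.cast_nonneg _
    rcases h5.eq_or_lt with h6 | h6
    · change 1 / 2 < (mixTime (step (k + 10)) (1 / 4) : ℝ) /
        (mixTime (step (k + 10)) (1 - 1 / 4) : ℝ) at hk1
      rw [← h6, div_zero] at hk1
      norm_num at hk1
    · change (mixTime (step (k + 10)) (1 / 4) : ℝ) /
        (mixTime (step (k + 10)) (1 - 1 / 4) : ℝ) < 3 / 2 at hk2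
      rw [div_lt_iff₀ h6] at hk2
      linarith

end Pool.Agent.Results.MP_ee50b4_pr.ProductConditionNoCutoff
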